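import Pool.Agent.H77.Q.Defs
import Pool.Agent.H6.P4.Side

set_option autoImplicit false

/-!
Rooted codes with sides (MP_a46c6f_co, full Q1): translation to functions and the Laplacian; the
reduced Laplacian is injective.
-/

namespace Pool.Agent.H18.Q

open Pool.Agent.H98.Code Pool.Agent.H17.TR Pool.Agent.H6.P4 Pool.Agent.H77.Q

variable {V : Type} [Fintype V] [DecidableEq V]

theorem zz : ∀ x : ZMod 2, x = 0 ∨ x = 1 := by decide

theorem zne {x : ZMod 2} (h : x ≠ 0) : x = 1 := (zz x).resolve_left h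

theorem wd_zero_iff (H : V → V → ZMod 2) (f : V → ZMod 2) (v : V) :
    wd H f v = 0 ↔ f v = 0 ∧ Lap H f v = 0 := by
  constructor
  · exact lap_of_zero
  · intro h
    exact zero_of_lap h.1 h.2

theorem wd_z_iff (H : V → V → ZMod 2) (f : V → ZMod 2) (v : V) :
    wd H f v = z ↔ f v = 0 ∧ Lap H f v = 1 := by
  constructor
  · exact lap_of_z
  · intro h
    have h1 := h.2
    rw [lap_eq, h.1, mul_zero, zero_add] at h1
    exact Prod.ext h.1 h1

theorem wd_add (H : V → V → ZMod 2) (f g : V → ZMod 2) : wd H (f + g) = wd H f + wd H g := by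
  funext v
  apply Prod.ext
  · rfl
  · show ∑ w, H v w * (f w + g w) = (∑ w, H v w * f w) + ∑ w, H v w * g w
    rw [← Finset.sum_add_distrib]
    exact Finset.sum_congr rfl fun w _ => mul_add _ _ _

theorem wd_eq_iff (H : V → V → ZMod 2) (f g : V → ZMod 2) (v : V) :
    wd H f v = wd H g v ↔ f v = g v ∧ Lap H f v = Lap H g v := by
  have h1 := lap_wd H f v
  have h2 := lap_wd H g v
  constructor
  · intro h
    exact ⟨congrArg Prod.fst h, by rw [h1, h2, h]⟩
  · rintro ⟨h3, h4⟩
    rw [h1, h2] at h4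
    have h5 : (wd H f v).1 = (wd H g v).1 := h3
    rw [h5] at h4
    exact Prod.ext h5 (add_left_cancel h4)

theorem wd_inj (H : V → V → ZMod 2) {f g : V → ZMod 2} (h : wd H f = wd H g) : f = g := by
  funext v
  exact congrArg Prod.fst (congrFun h v)

theorem lap_zero (H : V → V → ZMod 2) (v : V) : Lap H 0 v = 0 := by
  unfold Lap
  exact Finset.sum_eq_zero fun w _ => by simp

theorem lap_one (H : V → V → ZMod 2) (v : V) : Lap H (fun _ => 1) v = 0 := by
  unfold Lap
  refine Finset.sum_eq_zero fun w _ => ?_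
  rw [show (1 : ZMod 2) + 1 = 0 from by decide, mul_zero]

/-- no letter `z` -/
def ZF (H : V → V → ZMod 2) (f : V → ZMod 2) : Prop := ∀ v, f v = 0 → Lap H f v = 0

/-- `g` is below `f` on the support of `f` -/
def LE (H : V → V → ZMod 2) (g f : V → ZMod 2) : Prop :=
  ∀ v, f v ≠ 0 → (g v = 0 ∧ Lap H g v = 0) ∨ (g v = f v ∧ Lap H g v = Lap H f v)

/-- `f` splits at `g` -/
def Spl (H : V → V → ZMod 2) (f : V → ZMod 2) (g : V) : Prop :=
  ∃ f₁ f₂ : V → ZMod 2, f₁ + f₂ = f ∧ (f₁ g = 0 ∧ Lap H f₁ g = 1) ∧ (f₂ g = 0 ∧ Lap H f₂ g = 1) ∧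
    ∀ v, v ≠ g → (f₁ v = 0 ∧ Lap H f₁ v = 0) ∨ (f₂ v = 0 ∧ Lap H f₂ v = 0)

/-- `f` contains no smaller word -/
def IrrF (H : V → V → ZMod 2) (f : V → ZMod 2) : Prop :=
  ∀ d : V → ZMod 2, (∀ v, (d v = 0 ∧ Lap H d v = 0) ∨ (d v = f v ∧ Lap H d v = Lap H f v)) →
    d = 0 ∨ d = f

/-- the sides in the language of functions -/
structure TS (H : V → V → ZMod 2) (e : V) (S : (V → ZMod 2) → Finset V → Prop) : Prop where
  sym : ∀ u v, H u v = H v u
  root : ∀ f Y, S f Y → e ∉ Y
  zero : ∀ f Y, S f Y → ∀ v ∈ Y, f v = 0 ∧ Lap H f v = 0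
  ex : ∀ f, ZF H f → f e = 0 → f ≠ 0 → IrrF H f → (∃ g, Spl H f g) ∨ ∃ Y, Y.Nonempty ∧ S f Y
  part : ∀ f Y, S f Y → ZF H f → ∀ k, LE H k f →
    ∃ k', (∀ v ∈ Y, k' v = k v ∧ Lap H k' v = Lap H k v) ∧
      (∀ v, f v = 0 → v ∉ Y → k' v = 0 ∧ Lap H k' v = 0) ∧ LE H k' f
  mono : ∀ f Y, S f Y → ZF H f → IrrF H f → ∀ k, ZF H k → k ≠ 0 → IrrF H k → LE H k f →
    (∀ v, f v = 0 → v ∉ Y → k v = 0 ∧ Lap H k v = 0) →
    (∃ g, Spl H k g) ∨ ∃ Y', Y' ⊆ Y ∧ Y'.Nonempty ∧ S k Y'

theorem spl_of {B : Submodule (ZMod 2) (V → K)} {H : V → V → ZMod 2} (hH : IsMat B H)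
    {f : V → ZMod 2} {g : V} (h : Splits B (wd H f) g) : Spl H f g := by
  obtain ⟨c₁, hc₁, c₂, hc₂, hs, h1, h2, h3⟩ := h
  have e1 := eq_wd hH hc₁
  have e2 := eq_wd hH hc₂
  rw [e1] at h1 hs
  rw [e2] at h2 hs
  rw [← wd_add] at hs
  refine ⟨_, _, wd_inj H hs, (wd_z_iff _ _ _).1 h1, (wd_z_iff _ _ _).1 h2, ?_⟩
  intro v hv
  rcases h3 v hv with h4 | h4
  · left
    rw [e1] at h4
    exact (wd_zero_iff _ _ _).1 h4
  · right
    rw [e2] at h4
    exact (wd_zero_iff _ _ _).1 h4

theorem irr_iff {B : Submodule (ZMod 2) (V → K)} {H : V → V → ZMod 2} (hH : IsMat B H)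
    (f : V → ZMod 2) : Irr B (wd H f) ↔ IrrF H f := by
  constructor
  · intro h d hd
    rcases h (wd H d) (wd_mem hH d) (by
      intro v
      rcases hd v with h1 | h1
      · exact Or.inl ((wd_zero_iff _ _ _).2 h1)
      · exact Or.inr ((wd_eq_iff _ _ _ _).2 h1)) with h1 | h1
    · left
      funext v
      exact congrArg Prod.fst (congrFun h1 v)
    · exact Or.inr (wd_inj H h1)
  · intro h d hd hle
    have e1 := eq_wd hH hd
    rcases h (fun v => (d v).1) (by
      intro v
      have h0 := hle v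
      rw [e1] at h0
      rcases h0 with h1 | h1
      · exact Or.inl ((wd_zero_iff _ _ _).1 h1)
      · exact Or.inr ((wd_eq_iff _ _ _ _).1 h1)) with h1 | h1
    · left
      rw [e1, h1]
      funext v
      exact (wd_zero_iff _ _ _).2 ⟨rfl, lap_zero H v⟩
    · right
      rw [e1, h1]

theorem ne_zero_iff {H : V → V → ZMod 2} {f : V → ZMod 2} (hz : ZF H f) (v : V) :
    wd H f v ≠ 0 ↔ f v ≠ 0 := by
  rw [not_iff_not, wd_zero_iff]
  exact ⟨fun h => h.1, fun h => ⟨h, hz v h⟩⟩

theorem zfree_of {H : V → V → ZMod 2} {f : V → ZMod 2} (hz : ZF H f) : ZFree (wd H f) := by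
  intro v hv
  have h1 := (wd_z_iff _ _ _).1 hv
  rw [hz v h1.1] at h1
  exact absurd h1.2 (by decide)

theorem zf_of {H : V → V → ZMod 2} {f : V → ZMod 2} (hz : ZFree (wd H f)) : ZF H f := by
  intro v hv
  rcases zz (Lap H f v) with h | h
  · exact h
  · exact absurd ((wd_z_iff _ _ _).2 ⟨hv, h⟩) (hz v)

theorem wd_ne {H : V → V → ZMod 2} {f : V → ZMod 2} (h : f ≠ 0) : wd H f ≠ 0 := by
  intro h1
  apply h
  funext v
  exact congrArg Prod.fst (congrFun h1 v)

theorem toTS {B : Submodule (ZMod 2) (V → K)} {H : V → V → ZMod 2} {e : V}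
    {S : (V → K) → Finset V → Prop} (hH : IsMat B H) (hS : RSides B e S) :
    TS H e (fun f Y => S (wd H f) Y) := by
  refine ⟨hH.sym, fun f Y h => hS.root _ _ h,
    fun f Y h v hv => (wd_zero_iff _ _ _).1 (hS.zero _ _ h v hv), ?_, ?_, ?_⟩
  · intro f hz he h0 hi
    rcases hS.ex (wd H f) (wd_mem hH f) (zfree_of hz) ((wd_zero_iff _ _ _).2 ⟨he, hz e he⟩)
      (wd_ne h0) ((irr_iff hH f).2 hi) with ⟨g, hg⟩ | h1
    · exact Or.inl ⟨g, spl_of hH hg⟩
    · exact Or.inr h1
  · intro f Y hY hz k hk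
    obtain ⟨k', hk', h1, h2, h3⟩ := hS.part _ _ hY (wd H k) (wd_mem hH k) (by
      intro v hv
      rcases hk v ((ne_zero_iff hz v).1 hv) with h | h
      · exact Or.inl ((wd_zero_iff _ _ _).2 h)
      · exact Or.inr ((wd_eq_iff _ _ _ _).2 h))
    have e1 := eq_wd hH hk'
    rw [e1] at h1 h2 h3
    refine ⟨fun v => (k' v).1, ?_, ?_, ?_⟩
    · intro v hv
      exact (wd_eq_iff _ _ _ _).1 (h1 v hv)
    · intro v hv hvY
      exact (wd_zero_iff _ _ _).1 (h2 v ((wd_zero_iff _ _ _).2 ⟨hv, hz v hv⟩) hvY)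
    · intro v hv
      rcases h3 v ((ne_zero_iff hz v).2 hv) with h | h
      · exact Or.inl ((wd_zero_iff _ _ _).1 h)
      · exact Or.inr ((wd_eq_iff _ _ _ _).1 h)
  · intro f Y hY hz hi k hkz hk0 hki hk hk1
    rcases hS.mono _ _ hY ((irr_iff hH f).2 hi) (wd H k) (wd_mem hH k) (zfree_of hkz) (wd_ne hk0)
      ((irr_iff hH k).2 hki) (by
        intro v hv
        rcases hk v ((ne_zero_iff hz v).1 hv) with h | h
        · exact Or.inl ((wd_zero_iff _ _ _).2 h)
        · exact Or.inr ((wd_eq_iff _ _ _ _).2 h)) (by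
        intro v hv hvY
        exact (wd_zero_iff _ _ _).2 (hk1 v ((wd_zero_iff _ _ _).1 hv).1 hvY)) with ⟨g, hg⟩ | h1
    · exact Or.inl ⟨g, spl_of hH hg⟩
    · exact Or.inr h1

/-! ### the kernel -/

/-- the kernel of the reduced Laplacian -/
def Kf (H : V → V → ZMod 2) (e : V) (f : V → ZMod 2) : Prop := f e = 0 ∧ ∀ v, Lap H f v = 0

theorem no_spl {H : V → V → ZMod 2} (hs : ∀ u v, H u v = H v u) {f : V → ZMod 2}
    (hall : ∀ v, Lap H f v = 0) (g : V) : ¬ Spl H f g := by
  rintro ⟨f₁, f₂, hsum, hg1, hg2, hd⟩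
  have h1 := sum_lap hs f₁
  rw [Fintype.sum_eq_single g] at h1
  · rw [hg1.2] at h1
    exact one_ne_zero h1
  · intro v hv
    rcases hd v hv with h2 | h2
    · exact h2.2
    · have h3 := lap_add H f₁ f₂ v
      rw [hsum, hall, h2.2, add_zero] at h3
      exact h3.symm

theorem exIrr {H : V → V → ZMod 2} {e : V} {f : V → ZMod 2} (hf : Kf H e f) (h0 : f ≠ 0) :
    ∃ k, k ≠ 0 ∧ Kf H e k ∧ IrrF H k ∧ ∀ v, k v = 0 ∨ k v = f v := by
  classical
  have hex : ∃ m : ℕ, ∃ k : V → ZMod 2, (k ≠ 0 ∧ Kf H e k ∧ ∀ v, k v = 0 ∨ k v = f v) ∧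
      (Finset.univ.filter fun v => k v ≠ 0).card = m := ⟨_, f, ⟨h0, hf, fun v => Or.inr rfl⟩, rfl⟩
  obtain ⟨k, ⟨hk0, hk, hkf⟩, hkm⟩ := Nat.find_spec hex
  refine ⟨k, hk0, hk, ?_, hkf⟩
  intro d hd
  by_contra hcon
  push Not at hcon
  have hdv : ∀ v, d v = 0 ∨ d v = k v := fun v => (hd v).imp (fun h => h.1) (fun h => h.1)
  have hdk : Kf H e d := by
    refine ⟨?_, fun v => ?_⟩
    · rcases hdv e with h | h
      · exact h
      · rw [h, hk.1]
    · rcases hd v with h | h
      · exact h.2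
      · rw [h.2, hk.2]
  have h1 := Nat.find_min' hex ⟨d, ⟨hcon.1, hdk, fun v => by
    rcases hdv v with h | h
    · exact Or.inl h
    · rcases hkf v with h' | h'
      · left; rw [h, h']
      · right; rw [h, h']⟩, rfl⟩
  rw [← hkm] at h1
  have hsub : (Finset.univ.filter fun v => d v ≠ 0) ⊆ Finset.univ.filter fun v => k v ≠ 0 := by
    intro v hv
    rw [Finset.mem_filter] at hv ⊢
    refine ⟨hv.1, ?_⟩
    rcases hdv v with h | h
    · exact absurd h hv.2
    · rw [← h]; exact hv.2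
  have heq := Finset.eq_of_subset_of_card_le hsub h1
  apply hcon.2
  funext v
  rcases hdv v with h | h
  · rw [h]
    by_contra hne
    have : v ∈ Finset.univ.filter fun v => k v ≠ 0 := by
      rw [Finset.mem_filter]
      exact ⟨Finset.mem_univ v, fun h' => hne h'.symm⟩
    rw [← heq, Finset.mem_filter] at this
    exact this.2 h
  · exact h

theorem TS.ker_aux {H : V → V → ZMod 2} {e : V} {S : (V → ZMod 2) → Finset V → Prop}
    (T : TS H e S) : ∀ (n : ℕ) (f : V → ZMod 2) (Y : Finset V), Y.card = n → S f Y →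
      Y.Nonempty → Kf H e f → IrrF H f → f ≠ 0 → False := by
  intro n
  induction n using Nat.strong_induction_on with
  | _ n ih =>
    intro f Y hn hY hne hf hi h0
    have hzf : ZF H f := fun v _ => hf.2 v
    have hbig : ∀ k, k ≠ 0 → Kf H e k → IrrF H k → (∀ v, f v ≠ 0 → k v = 0 ∨ k v = f v) →
        (∀ v, f v = 0 → v ∉ Y → k v = 0) → ∀ v ∈ Y, k v = 0 := by
      intro k hk0 hk hki hk1 hk2
      rcases T.mono f Y hY hzf hi k (fun v _ => hk.2 v) hk0 hki (by
        intro v hv
        rcases hk1 v hv with h | h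
        · exact Or.inl ⟨h, hk.2 v⟩
        · exact Or.inr ⟨h, by rw [hk.2, hf.2]⟩) (fun v h1 h2 => ⟨hk2 v h1 h2, hk.2 v⟩) with
        ⟨g, hg⟩ | ⟨Y', hY', hne', hS'⟩
      · exact absurd hg (no_spl T.sym hk.2 g)
      · have hc := Finset.card_le_card hY'
        rcases Nat.lt_or_ge Y'.card Y.card with h | h
        · exact absurd (ih Y'.card (by omega) k Y' rfl hS' hne' hk hki hk0) not_false
        · have : Y' = Y := Finset.eq_of_subset_of_card_le hY' h
          intro v hv
          rw [← this] at hv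
          exact (T.zero k Y' hS' v hv).1
    obtain ⟨k', h1, h2, h3⟩ := T.part f Y hY hzf (fun _ => 1) (by
      intro v hv
      right
      exact ⟨(zne hv).symm, by rw [lap_one, hf.2]⟩)
    have hk' : Kf H e k' := by
      refine ⟨(h2 e hf.1 (T.root f Y hY)).1, fun v => ?_⟩
      by_cases hvY : v ∈ Y
      · rw [(h1 v hvY).2, lap_one]
      · by_cases hfv : f v = 0
        · exact (h2 v hfv hvY).2
        · rcases h3 v hfv with h | h
          · exact h.2
          · rw [h.2, hf.2]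
    obtain ⟨y, hy⟩ := hne
    have hky : k' y = 1 := (h1 y hy).1
    have hk0 : k' ≠ 0 := by
      intro h
      rw [h] at hky
      exact zero_ne_one hky
    obtain ⟨k0, a1, a2, a3, a4⟩ := exIrr hk' hk0
    have b1 : ∀ v, f v ≠ 0 → k0 v = 0 ∨ k0 v = f v := by
      intro v hv
      rcases a4 v with h | h
      · exact Or.inl h
      · rcases h3 v hv with h' | h'
        · left; rw [h, h'.1]
        · right; rw [h, h'.1]
    have b2 : ∀ v, f v = 0 → v ∉ Y → k0 v = 0 := by
      intro v hv hvY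
      rcases a4 v with h | h
      · exact h
      · rw [h]; exact (h2 v hv hvY).1
    have b3 := hbig k0 a1 a2 a3 b1 b2
    have hkf : k0 = f := by
      rcases hi k0 (by
        intro v
        by_cases hv : f v = 0
        · left
          refine ⟨?_, a2.2 v⟩
          by_cases hvY : v ∈ Y
          · exact b3 v hvY
          · exact b2 v hv hvY
        · rcases b1 v hv with h | h
          · exact Or.inl ⟨h, a2.2 v⟩
          · exact Or.inr ⟨h, by rw [a2.2, hf.2]⟩) with h | h
      · exact absurd h a1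
      · exact h
    have hKs : Kf H e (k' + f) := by
      refine ⟨?_, fun v => ?_⟩
      · rw [Pi.add_apply, hk'.1, hf.1, add_zero]
      · rw [lap_add, hk'.2, hf.2, add_zero]
    have hs0 : k' + f ≠ 0 := by
      intro h
      have h5 := congrFun h y
      rw [Pi.add_apply, hky, (T.zero f Y hY y hy).1, add_zero] at h5
      exact one_ne_zero h5
    obtain ⟨k1, c1, c2, c3, c4⟩ := exIrr hKs hs0
    have d1 : ∀ v, f v ≠ 0 → k1 v = 0 := by
      intro v hv
      have h5 : k' v = f v := by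
        rcases a4 v with h | h
        · rw [hkf] at h
          exact absurd h hv
        · rw [← h, hkf]
      rcases c4 v with h | h
      · exact h
      · rw [h, Pi.add_apply, h5]
        exact CharTwo.add_self_eq_zero _
    have d2 : ∀ v, f v = 0 → v ∉ Y → k1 v = 0 := by
      intro v hv hvY
      rcases c4 v with h | h
      · exact h
      · rw [h, Pi.add_apply, (h2 v hv hvY).1, hv, add_zero]
    have d3 := hbig k1 c1 c2 c3 (fun v hv => Or.inl (d1 v hv)) d2
    apply c1
    funext v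
    by_cases hv : f v = 0
    · by_cases hvY : v ∈ Y
      · exact d3 v hvY
      · exact d2 v hv hvY
    · exact d1 v hv

/-- the reduced Laplacian is injective -/
theorem TS.ker {H : V → V → ZMod 2} {e : V} {S : (V → ZMod 2) → Finset V → Prop}
    (T : TS H e S) (f : V → ZMod 2) (he : f e = 0) (h : ∀ v, v ≠ e → Lap H f v = 0) : f = 0 := by
  have hle : Lap H f e = 0 := by
    have h1 := sum_lap T.sym f
    rw [Fintype.sum_eq_single e h] at h1
    exact h1
  have hall : ∀ v, Lap H f v = 0 := by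
    intro v
    by_cases hv : v = e
    · rw [hv, hle]
    · exact h v hv
  by_contra hf
  obtain ⟨k, h1, h2, h3, _⟩ := exIrr (e := e) ⟨he, hall⟩ hf
  rcases T.ex k (fun v _ => h2.2 v) h2.1 h1 h3 with ⟨g, hg⟩ | ⟨Y, hne, hY⟩
  · exact no_spl T.sym h2.2 g hg
  · exact T.ker_aux Y.card k Y rfl hY hne h2 h3 h1

/-- the inverse of the reduced Laplacian -/
theorem exists_inv {H : V → V → ZMod 2} {e : V} (hs : ∀ u v, H u v = H v u)
    (hker : ∀ f : V → ZMod 2, f e = 0 → (∀ v, v ≠ e → Lap H f v = 0) → f = 0) :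
    ∃ M : V → V → ZMod 2, (∀ x, M x e = 0) ∧
      ∀ x v, Lap H (M x) v = (if v = x then 1 else 0) + (if v = e then 1 else 0) := by
  set R : (V → ZMod 2) →+ (V → ZMod 2) :=
    { toFun := fun f v => if v = e then f e else Lap H f v
      map_zero' := by
        funext v
        by_cases hv : v = e
        · simp [hv]
        · simp [hv, Lap]
      map_add' := by
        intro f g
        funext v
        by_cases hv : v = e
        · simp [hv]
        · simp [hv, lap_add] } with hR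
  have hval : ∀ f v, R f v = if v = e then f e else Lap H f v := fun f v => rfl
  have hinj : Function.Injective R := by
    rw [injective_iff_map_eq_zero]
    intro f hf
    apply hker f
    · have h1 := congrFun hf e
      rw [hval, if_pos rfl] at h1
      exact h1
    · intro v hv
      have h1 := congrFun hf v
      rw [hval, if_neg hv] at h1
      exact h1
  have hsur : Function.Surjective R := Finite.injective_iff_surjective.1 hinj
  choose M hM using fun x : V => hsur (fun v => if v = e then 0 else if v = x then 1 else 0)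
  have h0 : ∀ x, M x e = 0 := by
    intro x
    have h1 := congrFun (hM x) e
    rw [hval, if_pos rfl, if_pos rfl] at h1
    exact h1
  have h1 : ∀ x v, v ≠ e → Lap H (M x) v = if v = x then 1 else 0 := by
    intro x v hv
    have h2 := congrFun (hM x) v
    rw [hval, if_neg hv, if_neg hv] at h2
    exact h2
  refine ⟨M, h0, fun x v => ?_⟩
  by_cases hv : v = e
  · subst hv
    have h2 := sum_lap hs (M x)
    rw [Fintype.sum_eq_add_sum_subtype_ne _ v] at h2
    have h3 : ∑ i : {w // w ≠ v}, Lap H (M x) i.1 = ∑ i : {w // w ≠ v}, if i.1 = x then 1 else 0 :=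
      Finset.sum_congr rfl fun i _ => h1 x i.1 i.2
    have h4 : ∑ w, (if w = x then (1 : ZMod 2) else 0) = 1 := by
      rw [Finset.sum_ite_eq' Finset.univ x, if_pos (Finset.mem_univ x)]
    rw [Fintype.sum_eq_add_sum_subtype_ne _ v, ← h3] at h4
    rw [if_pos rfl]
    revert h2 h4
    generalize Lap H (M x) v = A
    generalize (∑ i : {w // w ≠ v}, Lap H (M x) i.1) = B
    generalize (if v = x then (1 : ZMod 2) else 0) = C
    revert A B C
    decide
  · rw [h1 x v hv, if_neg hv, add_zero]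

end Pool.Agent.H18.Q
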