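import Pool.Agent.H18.Q.Basic
import Pool.Agent.H17.P3.Defs

set_option autoImplicit false

/-!
Rooted codes with sides (MP_a46c6f_co, full Q1): closed families of points.
-/

namespace Pool.Agent.H18.Q

open Pool.Agent.H98.Code Pool.Agent.H17.TR Pool.Agent.H6.P4 Pool.Agent.H77.Q

variable {V : Type} [Fintype V] [DecidableEq V]

/-- the matrix data -/
structure MD (H : V → V → ZMod 2) (e : V) (M : V → V → ZMod 2) : Prop where
  hs : ∀ u v, H u v = H v u
  h0 : ∀ x, M x e = 0
  hl : ∀ x v, Lap H (M x) v = (if v = x then 1 else 0) + (if v = e then 1 else 0)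

variable {H : V → V → ZMod 2} {e : V} {M : V → V → ZMod 2}

theorem MD.sym (D : MD H e M) (x y : V) : M x y = M y x := m_sym D.hs D.h0 D.hl x y

theorem MD.recn (D : MD H e M) (f : V → ZMod 2) (he : f e = 0) (y : V) :
    f y = ∑ v, Lap H f v * M v y := recon D.hs D.h0 D.hl f he y

/-- closed even family -/
structure CF (e : V) (M : V → V → ZMod 2) {n : ℕ} (p : Fin n → V) : Prop where
  hn : ((n : ℕ) : ZMod 2) = 0
  hn0 : 0 < n
  hp : Function.Injective p
  hpe : ∀ i, p i ≠ e
  hcl : ∀ j, ∑ i, M (p i) (p j) = 1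

/-- the word of the family -/
def sw (M : V → V → ZMod 2) {n : ℕ} (p : Fin n → V) : V → ZMod 2 := fun y => ∑ i, M (p i) y

variable {n : ℕ} {p : Fin n → V}

theorem lap_sum (H : V → V → ZMod 2) (c : Fin n → ZMod 2) (F : Fin n → V → ZMod 2) (v : V) :
    Lap H (fun y => ∑ i, c i * F i y) v = ∑ i, c i * Lap H (F i) v := by
  unfold Lap
  simp only [Finset.mul_sum]
  rw [Finset.sum_comm]
  refine Finset.sum_congr rfl fun w _ => ?_
  rw [← Finset.sum_add_distrib, Finset.mul_sum]
  exact Finset.sum_congr rfl fun i _ => by ring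

theorem lap_sw (D : MD H e M) (C : CF e M p) (v : V) :
    Lap H (sw M p) v = ∑ i, (if v = p i then 1 else 0) := by
  have h1 : sw M p = fun y => ∑ i, (1 : ZMod 2) * M (p i) y := by
    funext y
    simp only [sw, one_mul]
  rw [h1, lap_sum]
  simp only [D.hl, one_mul, Finset.sum_add_distrib]
  have h2 : ∑ _i : Fin n, (if v = e then (1 : ZMod 2) else 0) = 0 := by
    rw [Finset.sum_const, Finset.card_univ, Fintype.card_fin, nsmul_eq_mul, C.hn, zero_mul]
  rw [h2, add_zero]

theorem lap_sw_p (D : MD H e M) (C : CF e M p) (j : Fin n) : Lap H (sw M p) (p j) = 1 := by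
  rw [lap_sw D C, Finset.sum_eq_single j]
  · rw [if_pos rfl]
  · intro i _ hi
    rw [if_neg]
    intro h
    exact hi (C.hp h).symm
  · intro h
    exact absurd (Finset.mem_univ j) h

theorem lap_sw_0 (D : MD H e M) (C : CF e M p) {v : V} (hv : ∀ j, v ≠ p j) :
    Lap H (sw M p) v = 0 := by
  rw [lap_sw D C]
  exact Finset.sum_eq_zero fun i _ => by rw [if_neg (hv i)]

theorem sw_p (C : CF e M p) (j : Fin n) : sw M p (p j) = 1 := C.hcl j

theorem sw_e (D : MD H e M) : sw M p e = 0 := Finset.sum_eq_zero fun i _ => D.h0 (p i)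

theorem sw_ne (C : CF e M p) : sw M p ≠ 0 := by
  intro h
  have h1 := sw_p C ⟨0, C.hn0⟩
  rw [h] at h1
  exact zero_ne_one h1

theorem sw_zf (D : MD H e M) (C : CF e M p) : ZF H (sw M p) := by
  intro v hv
  apply lap_sw_0 D C
  intro j hj
  rw [hj, sw_p C] at hv
  exact one_ne_zero hv

/-- words supported on the family -/
theorem span0 (D : MD H e M) (C : CF e M p) {d : V → ZMod 2} (he : d e = 0)
    (h : ∀ v, (∀ j, v ≠ p j) → Lap H d v = 0) :
    (∀ y, d y = ∑ i, Lap H d (p i) * M (p i) y) ∧ ∑ i, Lap H d (p i) = 0 := by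
  have hb : ∀ F : V → ZMod 2, (∀ v, (∀ j, v ≠ p j) → F v = 0) → ∑ v, F v = ∑ i, F (p i) := by
    intro F hF
    symm
    refine Fintype.sum_of_injective p C.hp _ _ ?_ fun i => rfl
    intro v hv
    exact hF v fun j hj => hv ⟨j, hj.symm⟩
  constructor
  · intro y
    rw [D.recn d he, hb (fun v => Lap H d v * M v y)]
    intro v hv
    rw [h v hv, zero_mul]
  · rw [← hb (fun v => Lap H d v) h]
    exact sum_lap D.hs d

/-- words supported on the family and one more point -/
theorem span1 (D : MD H e M) (C : CF e M p) {d : V → ZMod 2} {g : V} (hg : ∀ j, g ≠ p j)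
    (he : d e = 0) (hgd : Lap H d g = 1)
    (h : ∀ v, v ≠ g → (∀ j, v ≠ p j) → Lap H d v = 0) :
    (∀ y, d y = M g y + ∑ i, Lap H d (p i) * M (p i) y) ∧ ∑ i, Lap H d (p i) = 1 := by
  have hb : ∀ F : V → ZMod 2, (∀ v, v ≠ g → (∀ j, v ≠ p j) → F v = 0) →
      ∑ v, F v = F g + ∑ i, F (p i) := by
    intro F hF
    have h1 : ∑ v ∈ insert g (Finset.univ.image p), F v = ∑ v, F v := by
      apply Finset.sum_subset (Finset.subset_univ _)
      intro v _ hv
      rw [Finset.mem_insert, not_or, Finset.mem_image] at hv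
      apply hF v hv.1
      intro j hj
      exact hv.2 ⟨j, Finset.mem_univ j, hj.symm⟩
    rw [← h1, Finset.sum_insert, Finset.sum_image]
    · intro i _ j _ h
      exact C.hp h
    · rw [Finset.mem_image]
      rintro ⟨j, _, hj⟩
      exact hg j hj.symm
  constructor
  · intro y
    rw [D.recn d he, hb (fun v => Lap H d v * M v y), hgd, one_mul]
    intro v hv hvp
    rw [h v hv hvp, zero_mul]
  · have h1 := sum_lap D.hs d
    rw [hb (fun v => Lap H d v) h, hgd] at h1
    revert h1
    generalize (∑ i, Lap H d (p i)) = A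
    revert A
    decide

/-- the coefficients of a point against the family -/
structure Co (M : V → V → ZMod 2) {n : ℕ} (p : Fin n → V) (g : V) (α : Fin n → ZMod 2) : Prop where
  one : ∑ i, α i = 1
  pt : ∀ j, M g (p j) = α j + ∑ i, α i * M (p i) (p j)

/-- the point where the word of a closed family splits -/
theorem co_of_spl (D : MD H e M) (C : CF e M p) {g : V} (h : Spl H (sw M p) g) :
    ∃ α, Co M p g α ∧ M g g = ∑ i, α i * M (p i) g ∧
      ∀ y, sw M p y = 0 → M g y = ∑ i, α i * M (p i) y := by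
  obtain ⟨f₁, f₂, hs, hg1, hg2, hd⟩ := h
  have hsum : ∀ v, f₁ v + f₂ v = sw M p v := fun v => congrFun hs v
  have hlsum : ∀ v, Lap H f₁ v + Lap H f₂ v = Lap H (sw M p) v := by
    intro v
    rw [← hs, lap_add]
  have hgp : ∀ j, g ≠ p j := by
    intro j hj
    have h1 := hsum g
    rw [hg1.1, hg2.1, hj, sw_p C] at h1
    exact absurd h1 (by decide)
  have hout : ∀ v, v ≠ g → (∀ j, v ≠ p j) → Lap H f₁ v = 0 := by
    intro v hv hvp
    rcases hd v hv with h1 | h1
    · exact h1.2
    · have h2 := hlsum v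
      rw [h1.2, lap_sw_0 D C hvp, add_zero] at h2
      exact h2
  have hfe : f₁ e = 0 := by
    by_cases hge : e = g
    · rw [hge]
      exact hg1.1
    · rcases hd e hge with h1 | h1
      · exact h1.1
      · have h2 := hsum e
        rw [h1.1, sw_e D, add_zero] at h2
        exact h2
  obtain ⟨hf1, ho⟩ := span1 D C hgp hfe hg1.2 hout
  refine ⟨fun i => Lap H f₁ (p i), ⟨ho, ?_⟩, ?_, ?_⟩
  · intro j
    have h1 := hf1 (p j)
    have h3 := hsum (p j)
    have h4 := hlsum (p j)
    rw [lap_sw_p D C] at h4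
    rw [sw_p C] at h3
    rcases hd (p j) (hgp j).symm with h5 | h5
    · rw [h5.1] at h1
      beta_reduce
      rw [h5.2, zero_add]
      exact (CharTwo.add_eq_zero.1 h1.symm)
    · rw [h5.1, add_zero] at h3
      rw [h5.2, add_zero] at h4
      rw [h3] at h1
      beta_reduce
      rw [h4]
      revert h1
      generalize (∑ i, Lap H f₁ (p i) * M (p i) (p j)) = A
      generalize M g (p j) = B
      revert A B
      decide
  · have h1 := hf1 g
    rw [hg1.1] at h1
    exact (CharTwo.add_eq_zero.1 h1.symm)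
  · intro y hy
    have h1 := hf1 y
    have h2 : f₁ y = 0 := by
      by_cases hyg : y = g
      · rw [hyg]
        exact hg1.1
      · rcases hd y hyg with h3 | h3
        · exact h3.1
        · have h4 := hsum y
          rw [h3.1, hy, add_zero] at h4
          exact h4
    rw [h2] at h1
    exact (CharTwo.add_eq_zero.1 h1.symm)

/-- an own point of the side of the word of a closed family -/
theorem co_of_own {S : (V → ZMod 2) → Finset V → Prop} (T : TS H e S) (D : MD H e M)
    (C : CF e M p) {Y : Finset V} (hY : S (sw M p) Y) {y : V} (hy : y ∈ Y)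
    (hJ : ∃ (J : Fin n → ZMod 2) (ε : ZMod 2), ∀ j,
      M y (p j) + ∑ i, J i * M (p i) (p j) + ε = J j) :
    ∃ α, Co M p y α ∧ ∀ v, sw M p v = 0 → v ∉ Y → M y v = ∑ i, α i * M (p i) v := by
  obtain ⟨J, ε, hJ⟩ := hJ
  have hz0 := T.zero _ _ hY
  have hye : y ≠ e := fun h => T.root _ _ hY (h ▸ hy)
  have hyp : ∀ j, y ≠ p j := by
    intro j hj
    have h1 := (hz0 y hy).1
    rw [hj, sw_p C] at h1
    exact one_ne_zero h1
  set k : V → ZMod 2 := M y + (fun v => ∑ i, J i * M (p i) v) + (fun v => ε * (fun _ => (1 : ZMod 2)) v)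
    with hk
  have hkl : ∀ v, Lap H k v = (if v = y then 1 else 0) + (if v = e then 1 else 0) +
      ∑ i, J i * ((if v = p i then 1 else 0) + (if v = e then 1 else 0)) := by
    intro v
    rw [hk, lap_add, lap_add, D.hl, lap_sum]
    have h1 : Lap H (fun v => ε * (fun _ => (1 : ZMod 2)) v) v = 0 := by
      unfold Lap
      refine Finset.sum_eq_zero fun w _ => ?_
      have : ε * 1 + ε * 1 = 0 := CharTwo.add_self_eq_zero _
      simp only [this, mul_zero]
    rw [h1, add_zero]
    simp only [D.hl]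
  have hkv : ∀ v, k v = M y v + ∑ i, J i * M (p i) v + ε := by
    intro v
    simp only [hk, Pi.add_apply, mul_one]
  have hkl0 : ∀ v, v ≠ y → v ≠ e → (∀ j, v ≠ p j) → Lap H k v = 0 := by
    intro v h1 h2 h3
    rw [hkl, if_neg h1, if_neg h2, add_zero, zero_add]
    exact Finset.sum_eq_zero fun i _ => by rw [if_neg (h3 i), add_zero, mul_zero]
  have hklp : ∀ j, Lap H k (p j) = J j := by
    intro j
    rw [hkl, if_neg (fun h => hyp j h.symm), if_neg (C.hpe j), add_zero, zero_add,
      Finset.sum_eq_single j]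
    · rw [if_pos rfl, add_zero, mul_one]
    · intro i _ hi
      rw [if_neg (fun h => hi (C.hp h).symm), add_zero, mul_zero]
    · intro h
      exact absurd (Finset.mem_univ j) h
  have hkly : Lap H k y = 1 := by
    rw [hkl, if_pos rfl, if_neg hye, add_zero]
    rw [Finset.sum_eq_zero fun i _ => by rw [if_neg (hyp i), add_zero, mul_zero], add_zero]
  obtain ⟨k', h1, h2, h3⟩ := T.part _ _ hY (sw_zf D C) k (by
    intro v hv
    have hv1 : sw M p v = 1 := zne hv
    have hve : v ≠ e := by
      rintro rfl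
      exact hv (sw_e D)
    have hvy : v ≠ y := by
      rintro rfl
      exact hv (hz0 v hy).1
    by_cases hvp : ∃ j, v = p j
    · obtain ⟨j, rfl⟩ := hvp
      rw [hklp, lap_sw_p D C, hv1, hkv, hJ]
      rcases zz (J j) with h | h
      · exact Or.inl ⟨h, h⟩
      · exact Or.inr ⟨h, h⟩
    · push Not at hvp
      rw [hkl0 v hvy hve hvp, lap_sw_0 D C hvp, hv1]
      rcases zz (k v) with h | h
      · exact Or.inl ⟨h, rfl⟩
      · exact Or.inr ⟨h, rfl⟩)
  have hke : k' e = 0 := (h2 e (sw_e D) (T.root _ _ hY)).1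
  have hYp : ∀ j, p j ∉ Y := by
    intro j hj
    have h4 := (hz0 _ hj).1
    rw [sw_p C] at h4
    exact one_ne_zero h4
  have hk'0 : ∀ v, v ≠ y → (∀ j, v ≠ p j) → Lap H k' v = 0 := by
    intro v hvy hvp
    by_cases hvY : v ∈ Y
    · rw [(h1 v hvY).2]
      exact hkl0 v hvy (fun h => T.root _ _ hY (h ▸ hvY)) hvp
    · by_cases hsv : sw M p v = 0
      · exact (h2 v hsv hvY).2
      · rcases h3 v hsv with h | h
        · exact h.2
        · rw [h.2]
          exact lap_sw_0 D C hvp
  have hk'y : Lap H k' y = 1 := by rw [(h1 y hy).2, hkly]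
  obtain ⟨hf, ho⟩ := span1 D C hyp hke hk'y hk'0
  refine ⟨fun i => Lap H k' (p i), ⟨ho, ?_⟩, ?_⟩
  · intro j
    have h4 := hf (p j)
    have h5 : k' (p j) = Lap H k' (p j) := by
      rcases h3 (p j) (by rw [sw_p C]; exact one_ne_zero) with h | h
      · rw [h.1, h.2]
      · rw [h.1, h.2, sw_p C, lap_sw_p D C]
    rw [h5] at h4
    beta_reduce
    revert h4
    generalize (∑ i, Lap H k' (p i) * M (p i) (p j)) = A
    generalize M y (p j) = B
    generalize Lap H k' (p j) = E
    revert A B E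
    decide
  · intro v hv hvY
    have h4 := hf v
    rw [(h2 v hv hvY).1] at h4
    exact (CharTwo.add_eq_zero.1 h4.symm)

/-- the pairing -/
theorem pairing (hs : ∀ u v, H u v = H v u) {f k : V → ZMod 2} {g : V} (hz : ZF H f)
    (hk : LE H k f) (h : Spl H k g) : f g = 0 := by
  obtain ⟨f₁, f₂, hsum, hg1, hg2, hd⟩ := h
  by_contra hne
  have h1 := lap_sym hs f₁ f
  have h2 : ∑ v, (f v * Lap H f₁ v + f₁ v * Lap H f v) = 0 := by
    rw [Finset.sum_add_distrib, h1]
    exact CharTwo.add_self_eq_zero _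
  rw [Fintype.sum_eq_single g] at h2
  · rw [hg1.1, hg1.2, zne hne, one_mul, zero_mul, add_zero] at h2
    exact one_ne_zero h2
  · intro v hv
    by_cases hfv : f v = 0
    · rw [hfv, hz v hfv, zero_mul, mul_zero, add_zero]
    · have hfk : (f₁ v = 0 ∧ Lap H f₁ v = 0) ∨ (f₁ v = k v ∧ Lap H f₁ v = Lap H k v) := by
        rcases hd v hv with h3 | h3
        · exact Or.inl h3
        · right
          constructor
          · rw [← hsum, Pi.add_apply, h3.1, add_zero]
          · rw [← hsum, lap_add, h3.2, add_zero]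
      rcases hfk with h3 | h3
      · rw [h3.1, h3.2, mul_zero, zero_mul, add_zero]
      · rcases hk v hfv with h4 | h4
        · rw [h3.1, h3.2, h4.1, h4.2, mul_zero, zero_mul, add_zero]
        · rw [h3.1, h3.2, h4.1, h4.2]
          exact CharTwo.add_self_eq_zero _

/-- a splitting outside the own points is a splitting of the big word -/
theorem spl_up {S : (V → ZMod 2) → Finset V → Prop} (T : TS H e S) {f : V → ZMod 2}
    {Y : Finset V} (hY : S f Y) (hz : ZF H f) {k : V → ZMod 2} (hk : LE H k f)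
    (hk0 : ∀ v, f v = 0 → v ∉ Y → k v = 0 ∧ Lap H k v = 0) {g : V} (h : Spl H k g)
    (hg : g ∉ Y) : Spl H f g := by
  have hfg := pairing T.sym hz hk h
  obtain ⟨f₁, f₂, hsum, hg1, hg2, hd⟩ := h
  have hfk : ∀ v, v ≠ g →
      (f₁ v = 0 ∧ Lap H f₁ v = 0) ∨ (f₁ v = k v ∧ Lap H f₁ v = Lap H k v) := by
    intro v hv
    rcases hd v hv with h3 | h3
    · exact Or.inl h3
    · right
      constructor
      · rw [← hsum, Pi.add_apply, h3.1, add_zero]
      · rw [← hsum, lap_add, h3.2, add_zero]
  have hle : LE H f₁ f := by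
    intro v hv
    have hvg : v ≠ g := fun h => hv (h ▸ hfg)
    rcases hfk v hvg with h1 | h1
    · exact Or.inl h1
    · rcases hk v hv with h2 | h2
      · left; rw [h1.1, h1.2]; exact h2
      · right; rw [h1.1, h1.2]; exact h2
  obtain ⟨k', h1, h2, h3⟩ := T.part f Y hY hz f₁ hle
  have hk'g := h2 g hfg hg
  refine ⟨f₁ + k', f + (f₁ + k'), ?_, ?_, ?_, ?_⟩
  · funext v
    simp only [Pi.add_apply]
    generalize f₁ v = A
    generalize k' v = B
    generalize f v = C
    revert A B C
    decide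
  · rw [Pi.add_apply, lap_add, hg1.1, hg1.2, hk'g.1, hk'g.2]
    decide
  · rw [Pi.add_apply, Pi.add_apply, lap_add, lap_add, hg1.1, hg1.2, hk'g.1, hk'g.2, hfg, hz g hfg]
    decide
  · intro v hv
    rw [lap_add, lap_add, lap_add]
    simp only [Pi.add_apply]
    by_cases hvY : v ∈ Y
    · left
      rw [(h1 v hvY).1, (h1 v hvY).2]
      exact ⟨CharTwo.add_self_eq_zero _, CharTwo.add_self_eq_zero _⟩
    · by_cases hfv : f v = 0
      · left
        have h4 := h2 v hfv hvY
        rcases hfk v hv with h5 | h5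
        · rw [h5.1, h5.2, h4.1, h4.2, add_zero]; exact ⟨rfl, rfl⟩
        · have h6 := hk0 v hfv hvY
          rw [h5.1, h5.2, h4.1, h4.2, h6.1, h6.2, add_zero]; exact ⟨rfl, rfl⟩
      · rcases hle v hfv with h5 | h5 <;> rcases h3 v hfv with h6 | h6 <;>
          rw [h5.1, h5.2, h6.1, h6.2]
        · left; exact ⟨add_zero _, add_zero _⟩
        · right
          rw [zero_add, zero_add]
          exact ⟨CharTwo.add_self_eq_zero _, CharTwo.add_self_eq_zero _⟩
        · right
          rw [add_zero, add_zero]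
          exact ⟨CharTwo.add_self_eq_zero _, CharTwo.add_self_eq_zero _⟩
        · left
          exact ⟨CharTwo.add_self_eq_zero _, CharTwo.add_self_eq_zero _⟩

end Pool.Agent.H18.Q
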