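import Pool.Agent.H18.Q.Heart
import Pool.Agent.H26.P3.End
import Pool.Agent.H17.P3.Glue

set_option autoImplicit false

/-!
Rooted codes with sides (MP_a46c6f_co, full Q1): the graph is a tree.
-/

namespace Pool.Agent.H18.Q

open Pool.Agent.H98.Code Pool.Agent.H17.TR Pool.Agent.H77.Q

/-- **the heart (row B)**: the graph of a rooted code with sides is a tree -/
theorem heartB : ∀ (X : Type) [Fintype X] [DecidableEq X] (B : Submodule (ZMod 2) (X → K)) (e : X)
    (S : (X → K) → Finset X → Prop), IsCode B → NoZ B → RSides B e S → (graph B).IsTree := by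
  intro X _ _ B e S hB hz hS
  obtain ⟨H, hs, hm⟩ := exists_matrix hB hz
  have hH : IsMat B H := ⟨hs, hm⟩
  have hH' : Pool.Agent.H32.AA.IsMat B H := ⟨hs, hm⟩
  have heq : graph B = GrH H := by
    ext v w
    rw [Pool.Agent.H32.AA.adj_iff hH', hH.adj]
  rw [heq]
  obtain ⟨M, h1, h2, h3, h4, h5⟩ := heart hH hS
  exact Pool.Agent.H26.P3.tree_end X e H M hH.sym h1 h2 h3 h4 (Pool.Agent.H62.Ind.p3 X M h1 h4 h5)

end Pool.Agent.H18.Q
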