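import Pool.Agent.H18.Q.Core
import Pool.Agent.H62.Ind.P3
import Pool.Agent.H62.Ind.Cyl

set_option autoImplicit false

/-!
Rooted codes with sides (MP_a46c6f_co, full Q1): closed pairs have midpoints and induced paths have
bad points.
-/

namespace Pool.Agent.H18.Q

open Pool.Agent.H98.Code Pool.Agent.H17.TR Pool.Agent.H6.P4 Pool.Agent.H77.Q
open Pool.Agent.H17.P3 (IsP4 Bad P4Split)

variable {V : Type} [Fintype V] [DecidableEq V]
variable {H : V → V → ZMod 2} {e : V} {M : V → V → ZMod 2}

/-! ### pairs -/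

/-- closed pair -/
def CP (M : V → V → ZMod 2) (a b : V) : Prop := M a a = M b b ∧ M a b ≠ M a a

theorem CP.ab {a b : V} (h : CP M a b) : M a b = M a a + 1 := by
  have h2 := h.2
  revert h2
  generalize M a b = A
  generalize M a a = B
  revert A B
  decide

theorem CP.cf (D : MD H e M) {a b : V} (h : CP M a b) : CF e M ![a, b] := by
  have hab := h.ab
  have hba : M b a = M a a + 1 := by rw [D.sym b a, hab]
  have hee : ∀ x, M e x = 0 := fun x => by rw [D.sym, D.h0]
  refine ⟨by decide, by norm_num, ?_, ?_, ?_⟩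
  · intro i j hij
    have hne : a ≠ b := by
      rintro rfl
      exact h.2 rfl
    fin_cases i <;> fin_cases j
    · rfl
    · exact absurd hij hne
    · exact absurd hij.symm hne
    · rfl
  · intro i
    fin_cases i
    · change a ≠ e
      rintro rfl
      apply h.2
      rw [hee, hee]
    · change b ≠ e
      rintro rfl
      apply h.2
      rw [D.h0, h.1, D.h0]
  · intro j
    rw [Fin.sum_univ_two]
    fin_cases j
    · change M a a + M b a = 1
      rw [hba]
      generalize M a a = B
      revert B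
      decide
    · change M a b + M b b = 1
      rw [← h.1, hab]
      generalize M a a = B
      revert B
      decide

theorem CP.symm (D : MD H e M) {a b : V} (h : CP M a b) : CP M b a :=
  ⟨h.1.symm, by rw [D.sym b a, ← h.1]; exact h.2⟩

theorem irr_pair (D : MD H e M) {a b : V} (h : CP M a b) : IrrF H (sw M ![a, b]) := by
  have C := h.cf D
  intro d hd
  have he : d e = 0 := by
    rcases hd e with h1 | h1
    · exact h1.1
    · rw [h1.1, sw_e D]
  obtain ⟨h1, h2⟩ := span0 D C he (by
    intro v hv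
    rcases hd v with h3 | h3
    · exact h3.2
    · rw [h3.2, lap_sw_0 D C hv])
  simp only [Fin.sum_univ_two, Matrix.cons_val_zero, Matrix.cons_val_one] at h1 h2
  rcases zz (Lap H d a) with ha | ha
  · left
    rw [ha, zero_add] at h2
    funext y
    rw [h1, ha, h2, zero_mul, zero_mul, add_zero]
    rfl
  · right
    rw [ha] at h2
    have hb : Lap H d b = 1 := by
      revert h2
      generalize Lap H d b = A
      revert A
      decide
    funext y
    rw [h1, ha, hb, one_mul, one_mul]
    simp [sw, Fin.sum_univ_two]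

theorem J_pair (D : MD H e M) {a b : V} (h : CP M a b) {y : V} (hy : sw M ![a, b] y = 0) :
    ∃ (J : Fin 2 → ZMod 2) (ε : ZMod 2), ∀ j,
      M y (![a, b] j) + ∑ i, J i * M (![a, b] i) (![a, b] j) + ε = J j := by
  have hab := h.ab
  have hba : M b a = M a a + 1 := by rw [D.sym b a, hab]
  have h0 : M a y + M b y = 0 := by
    have := hy
    simp [sw, Fin.sum_univ_two] at this
    exact this
  have h1 : M y b = M y a := by
    rw [D.sym y b, D.sym y a]
    exact (CharTwo.add_eq_zero.1 h0).symm
  refine ⟨![M y a, 0], M a a * M y a, ?_⟩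
  intro j
  simp only [Fin.sum_univ_two, Matrix.cons_val_zero, Matrix.cons_val_one]
  fin_cases j
  · show M y a + (M y a * M a a + 0 * M b a) + M a a * M y a = M y a
    generalize M y a = A
    generalize M a a = B
    generalize M b a = E
    revert A B E
    decide
  · show M y b + (M y a * M a b + 0 * M b b) + M a a * M y a = 0
    rw [h1, hab]
    generalize M y a = A
    generalize M a a = B
    generalize M b b = E
    revert A B E
    decide

theorem co_pair (D : MD H e M) {a b : V} (h : CP M a b) {g : V} {α : Fin 2 → ZMod 2}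
    (hc : Co M ![a, b] g α) : M g a = M a a + 1 ∧ M g b = M a a + 1 := by
  have hab := h.ab
  have hba : M b a = M a a + 1 := by rw [D.sym b a, hab]
  have h1 := hc.one
  have h2 := hc.pt 0
  have h3 := hc.pt 1
  simp only [Fin.sum_univ_two, Matrix.cons_val_zero, Matrix.cons_val_one] at h1 h2 h3
  rw [hba] at h2
  rw [hab, ← h.1] at h3
  rw [h2, h3]
  revert h1
  generalize α 0 = A
  generalize α 1 = B
  generalize M a a = E
  revert A B E
  decide

theorem own_pair {S : (V → ZMod 2) → Finset V → Prop} (T : TS H e S) (D : MD H e M) {a b : V}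
    (h : CP M a b) {Y : Finset V} (hY : S (sw M ![a, b]) Y) {y : V} (hy : y ∈ Y) :
    M y a = M a a + 1 ∧ M y b = M a a + 1 ∧
      ∀ v, sw M ![a, b] v = 0 → v ∉ Y → M y v = M a v := by
  obtain ⟨α, hc, h1⟩ := co_of_own T D (h.cf D) hY hy (J_pair D h (T.zero _ _ hY y hy).1)
  obtain ⟨h2, h3⟩ := co_pair D h hc
  refine ⟨h2, h3, ?_⟩
  intro v hv hvY
  have h4 := h1 v hv hvY
  have h5 := hc.one
  have h0 : M a v + M b v = 0 := by
    have := hv
    simp [sw, Fin.sum_univ_two] at this
    exact this
  have h6 : M b v = M a v := (CharTwo.add_eq_zero.1 h0).symm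
  simp only [Fin.sum_univ_two, Matrix.cons_val_zero, Matrix.cons_val_one] at h4 h5
  rw [h6, ← add_mul, h5, one_mul] at h4
  exact h4

/-- midpoint -/
def MP (M : V → V → ZMod 2) (u v g : V) : Prop :=
  M g g ≠ M u u ∧ M g u = M g g ∧ M g v = M g g ∧ ∀ x, M u x = M v x → M g x = M u x

theorem spl_pair (D : MD H e M) {a b : V} (h : CP M a b) {g : V}
    (hg : Spl H (sw M ![a, b]) g) : MP M a b g := by
  obtain ⟨α, hc, h1, h2⟩ := co_of_spl D (h.cf D) hg
  obtain ⟨h3, h4⟩ := co_pair D h hc
  have h5 := hc.one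
  simp only [Fin.sum_univ_two, Matrix.cons_val_zero, Matrix.cons_val_one] at h1 h2 h5
  have h6 : M g g = M a a + 1 := by
    rw [h1, D.sym a g, D.sym b g, h3, h4, ← add_mul, h5, one_mul]
  refine ⟨?_, by rw [h3, h6], by rw [h4, h6], ?_⟩
  · rw [h6]
    generalize M a a = B
    revert B
    decide
  · intro x hx
    have h7 : sw M ![a, b] x = 0 := by
      simp [sw, Fin.sum_univ_two]
      rw [hx]
      exact CharTwo.add_self_eq_zero _
    rw [h2 x h7, ← hx, ← add_mul, h5, one_mul]

/-! ### paths -/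

/-- path with the colours `0110` -/
structure Q4 (M : V → V → ZMod 2) (a b c d : V) : Prop where
  P : IsP4 M a b c d
  aa : M a a = 0
  bb : M b b = 1
  cc : M c c = 1
  dd : M d d = 0

theorem Q4.cf (D : MD H e M) {a b c d : V} (h : Q4 M a b c d) : CF e M ![a, b, c, d] := by
  obtain ⟨⟨hab, hbc, hcd, hac, had, hbd⟩, ha, hb, hcc, hd⟩ := h
  have hba : M b a = 1 := by rw [D.sym, hab]
  have hcb : M c b = 1 := by rw [D.sym, hbc]
  have hdc : M d c = 1 := by rw [D.sym, hcd]
  have hca : M c a = 0 := by rw [D.sym, hac]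
  have hda : M d a = 0 := by rw [D.sym, had]
  have hdb : M d b = 0 := by rw [D.sym, hbd]
  have he : ∀ x, M e x = 0 := fun x => by rw [D.sym, D.h0]
  have h01 : (0 : ZMod 2) ≠ 1 := by decide
  have nab : a ≠ b := by rintro rfl; exact h01 (ha.symm.trans hb)
  have nac : a ≠ c := by rintro rfl; exact h01 (ha.symm.trans hcc)
  have nad : a ≠ d := by rintro rfl; exact h01 (hdb.symm.trans hab)
  have nbc : b ≠ c := by rintro rfl; exact h01 (hbd.symm.trans hcd)
  have nbd : b ≠ d := by rintro rfl; exact h01 (hd.symm.trans hb)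
  have ncd : c ≠ d := by rintro rfl; exact h01 (hd.symm.trans hcc)
  refine ⟨by decide, by norm_num, ?_, ?_, ?_⟩
  · intro i j hij
    fin_cases i <;> fin_cases j <;> first
      | rfl
      | exact absurd hij nab
      | exact absurd hij nac
      | exact absurd hij nad
      | exact absurd hij nbc
      | exact absurd hij nbd
      | exact absurd hij ncd
      | exact absurd hij.symm nab
      | exact absurd hij.symm nac
      | exact absurd hij.symm nad
      | exact absurd hij.symm nbc
      | exact absurd hij.symm nbd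
      | exact absurd hij.symm ncd
  · intro i
    fin_cases i
    · change a ≠ e
      rintro rfl
      exact h01 ((he b).symm.trans hab)
    · change b ≠ e
      rintro rfl
      exact h01 ((he c).symm.trans hbc)
    · change c ≠ e
      rintro rfl
      exact h01 ((he d).symm.trans hcd)
    · change d ≠ e
      rintro rfl
      exact h01 ((he c).symm.trans hdc)
  · intro j
    rw [Fin.sum_univ_four]
    fin_cases j
    · change M a a + M b a + M c a + M d a = 1
      rw [ha, hba, hca, hda]
      decide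
    · change M a b + M b b + M c b + M d b = 1
      rw [hab, hb, hcb, hdb]
      decide
    · change M a c + M b c + M c c + M d c = 1
      rw [hac, hbc, hcc, hdc]
      decide
    · change M a d + M b d + M c d + M d d = 1
      rw [had, hbd, hcd, hd]
      decide

/-- the four equations -/
theorem Q4.eqs (D : MD H e M) {a b c d : V} (h : Q4 M a b c d) (α : Fin 4 → ZMod 2) :
    (∑ i, α i * M (![a, b, c, d] i) a = α 1) ∧
      (∑ i, α i * M (![a, b, c, d] i) b = α 0 + α 1 + α 2) ∧
      (∑ i, α i * M (![a, b, c, d] i) c = α 1 + α 2 + α 3) ∧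
      (∑ i, α i * M (![a, b, c, d] i) d = α 2) := by
  obtain ⟨⟨hab, hbc, hcd, hac, had, hbd⟩, ha, hb, hcc, hd⟩ := h
  have hba : M b a = 1 := by rw [D.sym, hab]
  have hcb : M c b = 1 := by rw [D.sym, hbc]
  have hdc : M d c = 1 := by rw [D.sym, hcd]
  have hca : M c a = 0 := by rw [D.sym, hac]
  have hda : M d a = 0 := by rw [D.sym, had]
  have hdb : M d b = 0 := by rw [D.sym, hbd]
  simp only [Fin.sum_univ_four]
  refine ⟨?_, ?_, ?_, ?_⟩
  · change α 0 * M a a + α 1 * M b a + α 2 * M c a + α 3 * M d a = _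
    rw [ha, hba, hca, hda]; ring
  · change α 0 * M a b + α 1 * M b b + α 2 * M c b + α 3 * M d b = _
    rw [hab, hb, hcb, hdb]; ring
  · change α 0 * M a c + α 1 * M b c + α 2 * M c c + α 3 * M d c = _
    rw [hac, hbc, hcc, hdc]; ring
  · change α 0 * M a d + α 1 * M b d + α 2 * M c d + α 3 * M d d = _
    rw [had, hbd, hcd, hd]; ring

theorem irr_q4 (D : MD H e M) {a b c d : V} (h : Q4 M a b c d) :
    IrrF H (sw M ![a, b, c, d]) := by
  have C := h.cf D
  intro k hk
  have he : k e = 0 := by
    rcases hk e with h1 | h1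
    · exact h1.1
    · rw [h1.1, sw_e D]
  obtain ⟨h1, h2⟩ := span0 D C he (by
    intro v hv
    rcases hk v with h3 | h3
    · exact h3.2
    · rw [h3.2, lap_sw_0 D C hv])
  have hpt : ∀ j, k (![a, b, c, d] j) = Lap H k (![a, b, c, d] j) := by
    intro j
    rcases hk (![a, b, c, d] j) with h3 | h3
    · rw [h3.1, h3.2]
    · rw [h3.1, h3.2, sw_p C, lap_sw_p D C]
  obtain ⟨e0, e1, e2, e3⟩ := h.eqs D (fun i => Lap H k (![a, b, c, d] i))
  have q0 := hpt 0
  have q1 := hpt 1
  have q2 := hpt 2
  have q3 := hpt 3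
  rw [h1] at q0 q1 q2 q3
  have r0 : Lap H k b = Lap H k a := e0.symm.trans q0
  have r1 : Lap H k a + Lap H k b + Lap H k c = Lap H k b := e1.symm.trans q1
  have r2 : Lap H k b + Lap H k c + Lap H k d = Lap H k c := e2.symm.trans q2
  have hall : Lap H k b = Lap H k a ∧ Lap H k c = Lap H k a ∧ Lap H k d = Lap H k a := by
    revert r0 r1 r2
    generalize Lap H k a = A
    generalize Lap H k b = B
    generalize Lap H k c = E
    generalize Lap H k d = G
    revert A B E G
    decide
  have hsum : ∀ y, k y = Lap H k a * (M a y + M b y + M c y + M d y) := by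
    intro y
    rw [h1 y, Fin.sum_univ_four]
    change Lap H k a * M a y + Lap H k b * M b y + Lap H k c * M c y + Lap H k d * M d y = _
    rw [hall.1, hall.2.1, hall.2.2]
    ring
  rcases zz (Lap H k a) with ha | ha
  · left
    funext y
    rw [hsum, ha, zero_mul]
    rfl
  · right
    funext y
    rw [hsum, ha, one_mul]
    show _ = ∑ i, M (![a, b, c, d] i) y
    rw [Fin.sum_univ_four]
    rfl

theorem sw4 (a b c d y : V) : sw M ![a, b, c, d] y = M a y + M b y + M c y + M d y := by
  show ∑ i, M (![a, b, c, d] i) y = _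
  rw [Fin.sum_univ_four]
  rfl

theorem sw2 (a b y : V) : sw M ![a, b] y = M a y + M b y := by
  show ∑ i, M (![a, b] i) y = _
  rw [Fin.sum_univ_two]
  rfl

theorem J_q4 (D : MD H e M) {a b c d : V} (h : Q4 M a b c d) {y : V}
    (hy : sw M ![a, b, c, d] y = 0) :
    ∃ (J : Fin 4 → ZMod 2) (ε : ZMod 2), ∀ j,
      M y (![a, b, c, d] j) + ∑ i, J i * M (![a, b, c, d] i) (![a, b, c, d] j) + ε = J j := by
  rw [sw4, D.sym a y, D.sym b y, D.sym c y, D.sym d y] at hy
  obtain ⟨e0, e1, e2, e3⟩ := h.eqs D (![0, M y a, M y b, M y a + M y c])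
  refine ⟨![0, M y a, M y b, M y a + M y c], 0, ?_⟩
  intro j
  fin_cases j
  · refine (congrArg (fun t => M y a + t + 0) e0).trans ?_
    show M y a + M y a + 0 = 0
    generalize M y a = A
    revert A
    decide
  · refine (congrArg (fun t => M y b + t + 0) e1).trans ?_
    show M y b + (0 + M y a + M y b) + 0 = M y a
    generalize M y a = A
    generalize M y b = B
    revert A B
    decide
  · refine (congrArg (fun t => M y c + t + 0) e2).trans ?_
    show M y c + (M y a + M y b + (M y a + M y c)) + 0 = M y b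
    generalize M y a = A
    generalize M y b = B
    generalize M y c = E
    revert A B E
    decide
  · refine (congrArg (fun t => M y d + t + 0) e3).trans ?_
    show M y d + M y b + 0 = M y a + M y c
    revert hy
    generalize M y a = A
    generalize M y b = B
    generalize M y c = E
    generalize M y d = G
    revert A B E G
    decide

theorem co_q4 (D : MD H e M) {a b c d : V} (h : Q4 M a b c d) {g : V} {α : Fin 4 → ZMod 2}
    (hc : Co M ![a, b, c, d] g α) : Bad M a b c d g := by
  obtain ⟨e0, e1, e2, e3⟩ := h.eqs D α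
  have h1 := hc.one
  have q0 : M g a = α 0 + α 1 := (hc.pt 0).trans (congrArg (α 0 + ·) e0)
  have q1 : M g b = α 1 + (α 0 + α 1 + α 2) := (hc.pt 1).trans (congrArg (α 1 + ·) e1)
  have q2 : M g c = α 2 + (α 1 + α 2 + α 3) := (hc.pt 2).trans (congrArg (α 2 + ·) e2)
  have q3 : M g d = α 3 + α 2 := (hc.pt 3).trans (congrArg (α 3 + ·) e3)
  rw [Fin.sum_univ_four] at h1
  unfold Bad
  rw [q0, q1, q2, q3]
  revert h1
  generalize α 0 = A
  generalize α 1 = B
  generalize α 2 = E
  generalize α 3 = G
  revert A B E G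
  decide

/-- agreement in the constant columns -/
def Agree (M : V → V → ZMod 2) (a b c d g : V) : Prop :=
  ∀ y, M a y = M b y → M a y = M c y → M a y = M d y → M g y = M a y

theorem const_sw {a b c d y : V} (h1 : M a y = M b y) (h2 : M a y = M c y) (h3 : M a y = M d y) :
    sw M ![a, b, c, d] y = 0 := by
  rw [sw4, ← h1, ← h2, ← h3]
  generalize M a y = A
  revert A
  decide

theorem const_sum {a b c d y : V} (h1 : M a y = M b y) (h2 : M a y = M c y) (h3 : M a y = M d y)
    {α : Fin 4 → ZMod 2} (ho : ∑ i, α i = 1) : ∑ i, α i * M (![a, b, c, d] i) y = M a y := by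
  rw [Fin.sum_univ_four] at ho ⊢
  change α 0 * M a y + α 1 * M b y + α 2 * M c y + α 3 * M d y = _
  rw [← h1, ← h2, ← h3, ← add_mul, ← add_mul, ← add_mul, ho, one_mul]

theorem spl_q4 (D : MD H e M) {a b c d : V} (h : Q4 M a b c d) {g : V}
    (hg : Spl H (sw M ![a, b, c, d]) g) : Bad M a b c d g ∧ Agree M a b c d g := by
  obtain ⟨α, hc, _, h2⟩ := co_of_spl D (h.cf D) hg
  refine ⟨co_q4 D h hc, ?_⟩
  intro y h3 h4 h5
  rw [h2 y (const_sw h3 h4 h5), const_sum h3 h4 h5 hc.one]

theorem own_q4 {S : (V → ZMod 2) → Finset V → Prop} (T : TS H e S) (D : MD H e M)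
    {a b c d : V} (h : Q4 M a b c d) {Y : Finset V} (hY : S (sw M ![a, b, c, d]) Y) {y : V}
    (hy : y ∈ Y) : Bad M a b c d y ∧ Agree M a b c d y := by
  have hbad : ∀ v ∈ Y, Bad M a b c d v := by
    intro v hv
    obtain ⟨α, hc, _⟩ := co_of_own T D (h.cf D) hY hv (J_q4 D h (T.zero _ _ hY v hv).1)
    exact co_q4 D h hc
  obtain ⟨α, hc, h1⟩ := co_of_own T D (h.cf D) hY hy (J_q4 D h (T.zero _ _ hY y hy).1)
  refine ⟨co_q4 D h hc, ?_⟩
  intro v h3 h4 h5
  rw [h1 v (const_sw h3 h4 h5) ?_, const_sum h3 h4 h5 hc.one]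
  intro hvY
  have h6 := (hbad v hvY).1
  rw [D.sym v a, D.sym v d] at h6
  exact h6 h5

/-! ### closed pairs split -/

/-- words over the own points are below the big word -/
theorem sub_le {S : (V → ZMod 2) → Finset V → Prop} (T : TS H e S) (D : MD H e M) {a b : V}
    (h : CP M a b) {Y : Finset V} (hY : S (sw M ![a, b]) Y) {k : V → ZMod 2}
    (h1 : ∀ v, v ∉ Y → Lap H k v = 0) (ha : k a = 0) (hb : k b = 0) :
    LE H k (sw M ![a, b]) := by
  intro v hv
  have hvY : v ∉ Y := fun hvY => hv (T.zero _ _ hY v hvY).1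
  by_cases hva : v = a
  · left; rw [hva] at hvY ⊢; exact ⟨ha, h1 a hvY⟩
  · by_cases hvb : v = b
    · left; rw [hvb] at hvY ⊢; exact ⟨hb, h1 b hvY⟩
    · rw [h1 v hvY, lap_sw_0 D (h.cf D) (by
        intro j
        fin_cases j
        · exact hva
        · exact hvb), zne hv]
      rcases zz (k v) with h2 | h2
      · exact Or.inl ⟨h2, rfl⟩
      · exact Or.inr ⟨h2, rfl⟩

theorem lap_pair (D : MD H e M) (u v x : V) :
    Lap H (sw M ![u, v]) x = (if x = u then 1 else 0) + (if x = v then 1 else 0) := by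
  have h1 : sw M ![u, v] = M u + M v := by
    funext y
    exact sw2 u v y
  rw [h1, lap_add, D.hl, D.hl]
  generalize (if x = u then (1 : ZMod 2) else 0) = A
  generalize (if x = v then (1 : ZMod 2) else 0) = B
  generalize (if x = e then (1 : ZMod 2) else 0) = E
  revert A B E
  decide

theorem pairs_spl {S : (V → ZMod 2) → Finset V → Prop} (T : TS H e S) (D : MD H e M) :
    ∀ (n : ℕ) (a b : V) (Y : Finset V), Y.card = n → CP M a b → S (sw M ![a, b]) Y →
      Y.Nonempty → ∃ g, Spl H (sw M ![a, b]) g := by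
  classical
  intro n
  induction n using Nat.strong_induction_on with
  | _ n ih =>
    intro a b Y hn h hY hne
    by_contra hns
    have C := h.cf D
    have hab := h.ab
    have hzf := sw_zf D C
    have hirr := irr_pair D h
    have own := fun y (hy : y ∈ Y) => own_pair T D h hY hy
    have hz0 := T.zero _ _ hY
    have heY := T.root _ _ hY
    have fa : sw M ![a, b] a = 1 := sw_p C 0
    have fb : sw M ![a, b] b = 1 := sw_p C 1
    have haY : a ∉ Y := fun h1 => by
      have := (hz0 a h1).1
      rw [fa] at this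
      exact one_ne_zero this
    have hbY : b ∉ Y := fun h1 => by
      have := (hz0 b h1).1
      rw [fb] at this
      exact one_ne_zero this
    -- splitting points of smaller words are own points
    have hup : ∀ k, LE H k (sw M ![a, b]) →
        (∀ v, sw M ![a, b] v = 0 → v ∉ Y → k v = 0 ∧ Lap H k v = 0) → ∀ g, Spl H k g → g ∈ Y := by
      intro k hk hk0 g hg
      by_contra hgY
      exact hns ⟨g, spl_up T hY hzf hk hk0 hg hgY⟩
    -- the words of even subsets of the own points
    have hsub : ∀ k, (∀ v, v ∉ Y → Lap H k v = 0) → k a = 0 → k b = 0 →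
        (∀ v, sw M ![a, b] v = 0 → v ∉ Y → k v = 0) → LE H k (sw M ![a, b]) ∧
        (∀ v, sw M ![a, b] v = 0 → v ∉ Y → k v = 0 ∧ Lap H k v = 0) := by
      intro k h1 h2 h3 h4
      exact ⟨sub_le T D h hY h1 h2 h3, fun v hv hvY => ⟨h4 v hv hvY, h1 v hvY⟩⟩
    have strict : ∀ u ∈ Y, ∀ v ∈ Y, CP M u v → ∃ g ∈ Y, MP M u v g := by
      intro u hu v hv huv
      have Cu := huv.cf D
      have hk1 : ∀ x, x ∉ Y → Lap H (sw M ![u, v]) x = 0 := by
        intro x hx
        have hxu : x ≠ u := fun h1 => hx (h1 ▸ hu)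
        have hxv : x ≠ v := fun h1 => hx (h1 ▸ hv)
        rw [lap_pair D, if_neg hxu, if_neg hxv, add_zero]
      have hk2 : sw M ![u, v] a = 0 := by
        rw [sw2, (own u hu).1, (own v hv).1]
        exact CharTwo.add_self_eq_zero _
      have hk3 : sw M ![u, v] b = 0 := by
        rw [sw2, (own u hu).2.1, (own v hv).2.1]
        exact CharTwo.add_self_eq_zero _
      have hk4 : ∀ x, sw M ![a, b] x = 0 → x ∉ Y → sw M ![u, v] x = 0 := by
        intro x hx hxY
        rw [sw2, (own u hu).2.2 x hx hxY, (own v hv).2.2 x hx hxY]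
        exact CharTwo.add_self_eq_zero _
      obtain ⟨l1, l2⟩ := hsub _ hk1 hk2 hk3 hk4
      have hspl : ∃ g, Spl H (sw M ![u, v]) g := by
        rcases T.mono _ _ hY hzf hirr _ (sw_zf D Cu) (sw_ne Cu) (irr_pair D huv) l1 l2 with
          h1 | ⟨Y', hY', hne', hS'⟩
        · exact h1
        · have hlt : Y'.card < Y.card := by
            apply Finset.card_lt_card
            refine ⟨hY', fun h1 => ?_⟩
            have h2 := (T.zero _ _ hS' u (h1 hu)).1
            have h3 : sw M ![u, v] u = 1 := sw_p Cu 0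
            rw [h3] at h2
            exact one_ne_zero h2
          exact ih Y'.card (by omega) u v Y' rfl huv hS' hne'
      obtain ⟨g, hg⟩ := hspl
      exact ⟨g, hup _ l1 l2 g hg, spl_pair D huv hg⟩
    have strict4 : ∀ a' ∈ Y, ∀ b' ∈ Y, ∀ c' ∈ Y, ∀ d' ∈ Y, Q4 M a' b' c' d' →
        ∃ g ∈ Y, Bad M a' b' c' d' g ∧ Agree M a' b' c' d' g := by
      intro a' ha' b' hb' c' hc' d' hd' hQ
      have Cu := hQ.cf D
      have hk1 : ∀ x, x ∉ Y → Lap H (sw M ![a', b', c', d']) x = 0 := by
        intro x hx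
        apply lap_sw_0 D Cu
        intro j
        fin_cases j
        · exact fun h1 => hx (h1 ▸ ha')
        · exact fun h1 => hx (h1 ▸ hb')
        · exact fun h1 => hx (h1 ▸ hc')
        · exact fun h1 => hx (h1 ▸ hd')
      have four : ∀ x : ZMod 2, x + x + x + x = 0 := by decide
      have hk2 : sw M ![a', b', c', d'] a = 0 := by
        rw [sw4, (own a' ha').1, (own b' hb').1, (own c' hc').1, (own d' hd').1]
        exact four _
      have hk3 : sw M ![a', b', c', d'] b = 0 := by
        rw [sw4, (own a' ha').2.1, (own b' hb').2.1, (own c' hc').2.1, (own d' hd').2.1]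
        exact four _
      have hk4 : ∀ x, sw M ![a, b] x = 0 → x ∉ Y → sw M ![a', b', c', d'] x = 0 := by
        intro x hx hxY
        rw [sw4, (own a' ha').2.2 x hx hxY, (own b' hb').2.2 x hx hxY,
          (own c' hc').2.2 x hx hxY, (own d' hd').2.2 x hx hxY]
        exact four _
      obtain ⟨l1, l2⟩ := hsub _ hk1 hk2 hk3 hk4
      rcases T.mono _ _ hY hzf hirr _ (sw_zf D Cu) (sw_ne Cu) (irr_q4 D hQ) l1 l2 with
        ⟨g, hg⟩ | ⟨Y', hY', ⟨y, hy⟩, hS'⟩
      · exact ⟨g, hup _ l1 l2 g hg, spl_q4 D hQ hg⟩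
      · exact ⟨y, hY' hy, own_q4 T D hQ hS' hy⟩
    -- no induced path
    have hfree : ∀ a' ∈ Y, ∀ b' ∈ Y, ∀ c' ∈ Y, ∀ d' ∈ Y, ¬ IsP4 M a' b' c' d' := by
      intro a' ha' b' hb' c' hc' d' hd' hP
      refine Pool.Agent.H62.Ind.p3 {v // v ∈ Y} (fun x y => M x.1 y.1)
        (fun x y => D.sym x.1 y.1) ?_ ?_ ⟨a', ha'⟩ ⟨b', hb'⟩ ⟨c', hc'⟩ ⟨d', hd'⟩
        ⟨hP.ab, hP.bc, hP.cd, hP.ac, hP.ad, hP.bd⟩
      · rintro ⟨u, hu⟩ ⟨v, hv⟩ h1 h2
        obtain ⟨g, hg, g1, g2, g3, g4⟩ := strict u hu v hv ⟨h1, h2⟩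
        exact ⟨⟨g, hg⟩, g1, g2, g3, fun x hx => g4 x.1 hx⟩
      · rintro ⟨a1, ha1⟩ ⟨b1, hb1⟩ ⟨c1, hc1⟩ ⟨d1, hd1⟩ hP1 h1 h2 h3 h4
        obtain ⟨g, hg, g1, g2⟩ := strict4 a1 ha1 b1 hb1 c1 hc1 d1 hd1
          ⟨⟨hP1.ab, hP1.bc, hP1.cd, hP1.ac, hP1.ad, hP1.bd⟩, h1, h2, h3, h4⟩
        exact ⟨⟨g, hg⟩, g1, fun y e1 e2 e3 => g2 y.1 e1 e2 e3⟩
    -- a constant row
    obtain ⟨r, hr, l, hrl⟩ : ∃ r ∈ Y, ∃ l : ZMod 2, ∀ y ∈ Y, M r y = l := by
      have hz2 : ∀ x : ZMod 2, x ≠ 1 ↔ x = 0 := by decide
      have hfr : Pool.Agent.H44.P4.Free (fun x y => M x y = 1) Y := by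
        intro a' ha' b' hb' c' hc' d' hd' hP
        obtain ⟨q1, q2, q3, q4, q5, q6⟩ := hP
        exact hfree a' ha' b' hb' c' hc' d' hd' ⟨q1, q2, q3, (hz2 _).1 q4, (hz2 _).1 q5,
          (hz2 _).1 q6⟩
      have hpr : Pool.Agent.H44.P4.Pairs (fun x y => M x y = 1) Y := by
        intro u hu v hv h1 h2
        have h1' : M u u = M v v := (Pool.Agent.H62.Ind.iff_eq _ _).1 h1
        have h2'' : (M u v = 1 ↔ ¬ M u u = 1) := h2
        have h2' : M u v ≠ M u u := by
          intro h3
          rw [h3] at h2''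
          exact absurd h2'' (by tauto)
        obtain ⟨g, hg, g1, g2, g3, g4⟩ := strict u hu v hv ⟨h1', h2'⟩
        have e : ∀ p q : ZMod 2, p ≠ q → (p = 1 ↔ ¬ q = 1) := by decide
        refine ⟨g, hg, e _ _ g1, ?_, ?_, ?_⟩
        · show (M g u = 1 ↔ ¬ M u u = 1)
          rw [g2]; exact e _ _ g1
        · show (M g v = 1 ↔ ¬ M u u = 1)
          rw [g3]; exact e _ _ g1
        · intro y _ hy
          have hy' : M u y = M v y := (Pool.Agent.H62.Ind.iff_eq _ _).1 hy
          show (M g y = 1 ↔ M u y = 1)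
          rw [g4 y hy']
      rcases Pool.Agent.H62.Ind.claimA Y.card (fun x y => M x y = 1)
        (fun x y h1 => by rw [D.sym y x]; exact h1) Y rfl hne hfr hpr with
        ⟨r, hr, h1⟩ | ⟨r, hr, h1⟩
      · exact ⟨r, hr, 0, fun y hy => (hz2 _).1 (h1 y hy)⟩
      · exact ⟨r, hr, 1, fun y hy => h1 y hy⟩
    have hra : r ≠ a := fun h1 => haY (h1 ▸ hr)
    have hrb : r ≠ b := fun h1 => hbY (h1 ▸ hr)
    have hba' : M b a = M a a + 1 := by rw [D.sym b a, hab]
    have habne : a ≠ b := by
      rintro rfl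
      exact h.2 rfl
    -- the word of `r`, `a`
    have ka : sw M ![r, a] a = 1 := by
      rw [sw2, (own r hr).1]
      generalize M a a = A
      revert A
      decide
    have kb : sw M ![r, a] b = 0 := by
      rw [sw2, (own r hr).2.1, hab]
      exact CharTwo.add_self_eq_zero _
    have k0 : ∀ v, sw M ![a, b] v = 0 → v ∉ Y → sw M ![r, a] v = 0 ∧ Lap H (sw M ![r, a]) v = 0 := by
      intro v hv hvY
      constructor
      · rw [sw2, (own r hr).2.2 v hv hvY]
        exact CharTwo.add_self_eq_zero _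
      · have hvr : v ≠ r := fun h1 => hvY (h1 ▸ hr)
        have hva : v ≠ a := by
          rintro rfl
          rw [fa] at hv
          exact one_ne_zero hv
        rw [lap_pair D, if_neg hvr, if_neg hva, add_zero]
    have kle : LE H (sw M ![r, a]) (sw M ![a, b]) := by
      intro v hv
      have hvY : v ∉ Y := fun h1 => hv (hz0 v h1).1
      have hvr : v ≠ r := fun h1 => hvY (h1 ▸ hr)
      rw [lap_pair D, lap_pair D, if_neg hvr]
      by_cases hva : v = a
      · right
        subst hva
        rw [ka, fa, if_pos rfl, if_neg habne]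
        exact ⟨rfl, by decide⟩
      · by_cases hvb : v = b
        · left
          subst hvb
          rw [kb, if_neg hva]
          exact ⟨rfl, by decide⟩
        · rw [if_neg hva, if_neg hvb, zne hv]
          rcases zz (sw M ![r, a] v) with h2 | h2
          · exact Or.inl ⟨h2, by decide⟩
          · exact Or.inr ⟨h2, by decide⟩
    by_cases hl : l = M a a
    · -- the pair `r`, `a` is closed
      have hcp : CP M r a := by
        refine ⟨by rw [hrl r hr, hl], ?_⟩
        rw [(own r hr).1, hrl r hr, hl]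
        generalize M a a = A
        revert A
        decide
      have Cr := hcp.cf D
      have hspl : ∃ g, Spl H (sw M ![r, a]) g := by
        rcases T.mono _ _ hY hzf hirr _ (sw_zf D Cr) (sw_ne Cr) (irr_pair D hcp) kle k0 with
          h1 | ⟨Y', hY', ⟨y, hy⟩, hS'⟩
        · exact h1
        · exfalso
          have h2 := (T.zero _ _ hS' y hy).1
          rw [sw2, hrl y (hY' hy), D.sym a y, (own y (hY' hy)).1, hl] at h2
          revert h2
          generalize M a a = A
          revert A
          decide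
      obtain ⟨g, hg⟩ := hspl
      have hgY := hup _ kle k0 g hg
      have hm := spl_pair D hcp hg
      have h1 := hm.1
      rw [← hm.2.1, D.sym g r, hrl g hgY, hrl r hr] at h1
      exact h1 rfl
    · have hl' : l = M a a + 1 := by
        have key : ∀ l A : ZMod 2, ¬ l = A → l = A + 1 := by decide
        exact key _ _ hl
      refine hns ⟨r, sw M ![r, a], sw M ![a, b] + sw M ![r, a], ?_, ?_, ?_, ?_⟩
      · funext v
        simp only [Pi.add_apply]
        generalize sw M ![r, a] v = A
        generalize sw M ![a, b] v = B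
        revert A B
        decide
      · constructor
        · rw [sw2, hrl r hr, D.sym a r, (own r hr).1, hl']
          exact CharTwo.add_self_eq_zero _
        · rw [lap_pair D, if_pos rfl, if_neg hra, add_zero]
      · constructor
        · rw [Pi.add_apply, (hz0 r hr).1, zero_add, sw2, hrl r hr, D.sym a r, (own r hr).1, hl']
          exact CharTwo.add_self_eq_zero _
        · rw [lap_add, (hz0 r hr).2, zero_add, lap_pair D, if_pos rfl, if_neg hra, add_zero]
      · intro v hv
        by_cases hvY : v ∈ Y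
        · left
          constructor
          · rw [sw2, hrl v hvY, D.sym a v, (own v hvY).1, hl']
            exact CharTwo.add_self_eq_zero _
          · have hva : v ≠ a := fun h1 => haY (h1 ▸ hvY)
            rw [lap_pair D, if_neg hv, if_neg hva, add_zero]
        · by_cases hfv : sw M ![a, b] v = 0
          · exact Or.inl (k0 v hfv hvY)
          · rcases kle v hfv with h2 | h2
            · exact Or.inl h2
            · right
              rw [Pi.add_apply, lap_add, h2.1, h2.2]
              exact ⟨CharTwo.add_self_eq_zero _, CharTwo.add_self_eq_zero _⟩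

/-- **the heart**: the matrix of a rooted code with sides -/
theorem heart {B : Submodule (ZMod 2) (V → K)} {S : (V → K) → Finset V → Prop} (hH : IsMat B H)
    (hS : RSides B e S) :
    ∃ M : V → V → ZMod 2, (∀ x y, M x y = M y x) ∧ (∀ x, M e x = 0) ∧
      (∀ u, u ≠ e → ∀ v, (∑ w, H u w * (M u v + M w v)) = if u = v then 1 else 0) ∧
      Pool.Agent.H17.P3.Pairs M ∧ P4Split M := by
  classical
  have T := toTS hH hS
  obtain ⟨M, h0, hl⟩ := exists_inv hH.sym T.ker
  have D : MD H e M := ⟨hH.sym, h0, hl⟩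
  refine ⟨M, D.sym, fun x => by rw [D.sym, D.h0], ?_, ?_, ?_⟩
  · intro u hu v
    have h1 := hl v u
    rw [if_neg hu, add_zero] at h1
    rw [← h1]
    unfold Lap
    refine Finset.sum_congr rfl fun w _ => ?_
    rw [D.sym u v, D.sym w v]
  · intro u v h1 h2
    have hcp : CP M u v := ⟨h1, h2⟩
    have C := hcp.cf D
    have hspl : ∃ g, Spl H (sw M ![u, v]) g := by
      rcases T.ex _ (sw_zf D C) (sw_e D) (sw_ne C) (irr_pair D hcp) with h3 | ⟨Y, hne, hY⟩
      · exact h3
      · exact pairs_spl T D Y.card u v Y rfl hcp hY hne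
    obtain ⟨g, hg⟩ := hspl
    exact ⟨g, spl_pair D hcp hg⟩
  · intro a b c d hP h1 h2 h3 h4
    have hQ : Q4 M a b c d := ⟨hP, h1, h2, h3, h4⟩
    have C := hQ.cf D
    rcases T.ex _ (sw_zf D C) (sw_e D) (sw_ne C) (irr_q4 D hQ) with ⟨g, hg⟩ | ⟨Y, ⟨y, hy⟩, hY⟩
    · exact ⟨g, spl_q4 D hQ hg⟩
    · exact ⟨y, own_q4 T D hQ hY hy⟩

end Pool.Agent.H18.Q
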